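import Pool.Agent.Helper95.AG.Defs
import Pool.Agent.Helper25.AF.LevS
import Pool.Agent.Helper46.AF.LevExpFin

/-! # Project AG: level step, one parameter (the proof of AF with the parameters `h`, `P`)

`lev_probS_of`: from `lev_exp`, `conc`, `amp_ok` and `rr_meas`. With `κ = pp η P i * et η i`, `M` about `20 G / (et (i+1) κ)` translates,
`log Q = κ/10 * N * L` (`N = J (n + 5)`), the base of the product is at most `e^2 e^J`. -/

set_option autoImplicit false
open MeasureTheory Real Set Filter Topology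
open scoped ENNReal

namespace Pool.Agent.Helper25.AG

open Pool.Agent.Helper18.UC (nn LL sqo rep toT)
open Pool.Agent.Helper46.QP (TT Td)
open Pool.Agent.Helper82.AN (Ik Ow lawL wt bas eta Hw sq SepR)
open Pool.Agent.Helper95.AF (st po mt pM shb tst Fa gA nv ip bad Den rr un frc DC Ho Bs)
open Pool.Agent.Helper95.AG
open Pool.Agent.Helper25.AF (two_pow_le_exp shb_meas sq_frc_meas)

variable {d : ℕ}

/-! ### the constants -/

variable {η P : ℝ}

lemma et_pos (h0 : 0 < η) (i : ℕ) : 0 < et η i := by unfold et; positivity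

lemma et_succ (i : ℕ) : et η (i + 1) = et η i / 2 := by
  unfold et
  rw [pow_succ]
  field_simp

lemma et_le (h0 : 0 < η) (h1 : η ≤ 1 / 200) (i : ℕ) : et η i ≤ 1 / 200 := by
  unfold et
  have h : (1:ℝ) ≤ 2 ^ i := one_le_pow₀ (by norm_num)
  rw [div_le_iff₀ (by positivity)]
  linarith

lemma pp_pos (h0 : 0 < η) (hP : 0 < P) (i : ℕ) : 0 < pp η P i := by
  induction i with
  | zero => exact hP
  | succ i ih =>
    unfold pp
    have := et_pos h0 i
    positivity

lemma pp_succ (i : ℕ) : pp η P (i + 1) = pp η P i * et η i / 16 := rfl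

lemma pp_le_et (h0 : 0 < η) (h1 : η ≤ 1 / 200) (hP : 0 < P) (hP1 : P ≤ η / 100) (i : ℕ) : pp η P i ≤ et η i / 100 := by
  induction i with
  | zero =>
    unfold pp et
    rw [pow_zero, div_one]
    exact hP1
  | succ i ih =>
    rw [pp_succ, et_succ]
    have h4 := et_pos h0 i
    have h2 := et_le h0 h1 i
    have h3 := pp_pos h0 hP i
    nlinarith

lemma pp_le (h0 : 0 < η) (h1 : η ≤ 1 / 200) (hP : 0 < P) (hP1 : P ≤ η / 100) (i : ℕ) : pp η P i ≤ 1 / 20000 := by
  have h2 := pp_le_et h0 h1 hP hP1 i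
  have h3 := et_le h0 h1 i
  linarith

lemma et_inv_le (h0 : 0 < η) (i : ℕ) : (et η i)⁻¹ ≤ Real.exp (1 / η + i) := by
  have h1 : (et η i)⁻¹ = 1 / η * 2 ^ i := by
    unfold et
    rw [inv_div]
    ring
  have h2 := two_pow_le_exp i
  have h3 : 1 / η ≤ Real.exp (1 / η) := by
    have := Real.add_one_le_exp (1 / η)
    linarith
  rw [h1, Real.exp_add]
  exact mul_le_mul h3 h2 (by positivity) (Real.exp_pos _).le

/-- exponent of the constants -/
noncomputable def cc (η P : ℝ) : ℝ := 4 + 1 / η + 1 / P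

lemma cc_pos (h0 : 0 < η) (hP : 0 < P) : 4 ≤ cc η P := by
  unfold cc
  have : 0 < 1 / η := by positivity
  have : 0 < 1 / P := by positivity
  linarith

lemma pp_inv_le (h0 : 0 < η) (hP : 0 < P) (i : ℕ) : (pp η P i)⁻¹ ≤ Real.exp (cc η P * ((i:ℝ) + 1) ^ 2) := by
  have hη : 0 < 1 / η := by positivity
  have hPi : 0 < 1 / P := by positivity
  induction i with
  | zero =>
    have h2 : (pp η P 0)⁻¹ = 1 / P := by
      show P⁻¹ = 1 / P
      rw [one_div]
    have h3 := Real.add_one_le_exp (1 / P)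
    have h4 : Real.exp (1 / P) ≤ Real.exp (cc η P * (((0:ℕ):ℝ) + 1) ^ 2) := by
      rw [Real.exp_le_exp]
      unfold cc
      push_cast
      linarith
    rw [h2]
    linarith
  | succ i ih =>
    have h1 : (pp η P (i + 1))⁻¹ = (pp η P i)⁻¹ * (et η i)⁻¹ * 16 := by
      rw [pp_succ]
      have := pp_pos h0 hP i
      have := et_pos h0 i
      field_simp
    have h2 := et_inv_le h0 i
    have h3 := two_pow_le_exp 4
    push_cast at h3
    have h4 : (16:ℝ) ≤ Real.exp 4 := by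
      refine le_trans (by norm_num) h3
    rw [h1]
    calc (pp η P i)⁻¹ * (et η i)⁻¹ * 16 ≤ Real.exp (cc η P * ((i:ℝ) + 1) ^ 2) * Real.exp (1 / η + i) * Real.exp 4 := by
          have := pp_pos h0 hP i
          have := et_pos h0 i
          gcongr
      _ = Real.exp (cc η P * ((i:ℝ) + 1) ^ 2 + (1 / η + i) + 4) := by
          rw [Real.exp_add (cc η P * ((i:ℝ) + 1) ^ 2 + (1 / η + i)), Real.exp_add (cc η P * ((i:ℝ) + 1) ^ 2)]
      _ ≤ Real.exp (cc η P * (((i + 1 : ℕ) : ℝ) + 1) ^ 2) := by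
          rw [Real.exp_le_exp]
          push_cast
          have hi : (0:ℝ) ≤ i := Nat.cast_nonneg i
          have e1 : cc η P * ((i:ℝ) + 1 + 1) ^ 2 = cc η P * ((i:ℝ) + 1) ^ 2 + cc η P * (2 * i + 3) := by ring
          have e2 : 1 / η + i + 4 ≤ cc η P * (2 * i + 3) := by
            unfold cc
            nlinarith
          rw [e1]
          linarith

/-- threshold of the level step -/
noncomputable def KK (η P Z : ℝ) (i : ℕ) : ℝ := Z / (pp η P i ^ 2 * et η i * et η (i + 1))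

lemma KK_le {Z : ℝ} (hh : 0 < η) (hP : 0 < P) (hZ : 0 ≤ Z) (i : ℕ) :
    KK η P Z i ≤ Real.exp ((4 * cc η P + Z) * ((i:ℝ) + 1) ^ 2) := by
  have h1 := pp_inv_le hh hP i
  have h2 := et_inv_le hh i
  have h3 := et_inv_le hh (i + 1)
  have hp := pp_pos hh hP i
  have he := et_pos hh i
  have he1 := et_pos hh (i + 1)
  have h4 : KK η P Z i = Z * ((pp η P i)⁻¹ ^ 2 * (et η i)⁻¹ * (et η (i + 1))⁻¹) := by
    unfold KK
    field_simp
  have hi : (0:ℝ) ≤ i := Nat.cast_nonneg i
  have hη : 0 < 1 / η := by positivity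
  have hPi : 0 < 1 / P := by positivity
  have h6 : (1:ℝ) ≤ ((i:ℝ) + 1) ^ 2 := by nlinarith
  have hZe : Z ≤ Real.exp (Z * ((i:ℝ) + 1) ^ 2) := by
    have h5 := Real.add_one_le_exp (Z * ((i:ℝ) + 1) ^ 2)
    have h7 : Z * 1 ≤ Z * ((i:ℝ) + 1) ^ 2 := mul_le_mul_of_nonneg_left h6 hZ
    linarith
  rw [h4]
  calc Z * ((pp η P i)⁻¹ ^ 2 * (et η i)⁻¹ * (et η (i + 1))⁻¹)
      ≤ Real.exp (Z * ((i:ℝ) + 1) ^ 2) * (Real.exp (cc η P * ((i:ℝ) + 1) ^ 2) ^ 2 * Real.exp (1 / η + i) *
        Real.exp (1 / η + ((i + 1 : ℕ) : ℝ))) := by gcongr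
    _ = Real.exp (Z * ((i:ℝ) + 1) ^ 2 + (2 * (cc η P * ((i:ℝ) + 1) ^ 2) + (1 / η + i) + (1 / η + ((i + 1 : ℕ) : ℝ)))) := by
        rw [← Real.exp_nat_mul, ← Real.exp_add, ← Real.exp_add, ← Real.exp_add]
        norm_num
    _ ≤ _ := by
        rw [Real.exp_le_exp]
        push_cast
        have e1 : 2 * (1 / η) ≤ 2 * (1 / η) * ((i:ℝ) + 1) ^ 2 := by nlinarith
        have e2 : 2 * (i:ℝ) + 1 ≤ 8 * ((i:ℝ) + 1) ^ 2 := by nlinarith
        have e3 : 0 ≤ 2 * (1 / P) * ((i:ℝ) + 1) ^ 2 := by positivity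
        have e4 : 2 * cc η P * ((i:ℝ) + 1) ^ 2 = 8 * ((i:ℝ) + 1) ^ 2 + 2 * (1 / η) * ((i:ℝ) + 1) ^ 2 +
            2 * (1 / P) * ((i:ℝ) + 1) ^ 2 := by
          unfold cc
          ring
        linarith

/-! ### measurability -/

lemma EvS_meas (hrr : ∀ (a : ℝ) (n : ℕ) {ρ δ cap : ℝ}, 0 ≤ cap → 0 ≤ δ → Measurable (rr a n ρ δ cap)) (a : ℝ) {L : ℝ}
    (hL : 0 ≤ L) (i n J : ℕ) (y : ℝ) : MeasurableSet (EvS η P a L i n J y) := by
  have h1 : ∀ i n : ℕ, Measurable (Rl η P a L i n) := fun i n => hrr a n (by positivity) (by positivity)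
  unfold EvS
  refine measurableSet_lt (h1 _ _) ?_
  refine Measurable.sub (Measurable.sub ?_ measurable_const) measurable_const
  exact Finset.measurable_sum _ fun j _ => (h1 _ _).comp (shb_meas _)

lemma EvS_eq (a L : ℝ) (i n J : ℕ) (y : ℝ) : EvS η P a L i n J y = Bs a (Real.exp (-(pp η P i * n * L))) (Real.exp (-(2 * pp η P i * n * L)))
    (2 * n * L) (Real.exp (-(pp η P (i + 1) * (J * (n + 5) : ℕ) * L))) (Real.exp (-(2 * pp η P (i + 1) * (J * (n + 5) : ℕ) * L)))
    (2 * (J * (n + 5) : ℕ) * L) n J (et η i * (J * (n + 5) : ℕ) * L + y) := by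
  unfold EvS Bs Rl
  simp only [sub_sub]

/-! ### the numbers -/

/-- the base of the product -/
lemma base_le (hh : 0 < η) (hh1 : η ≤ 1 / 200) (hP : 0 < P) (hP1 : P ≤ η / 100) {C G L a y Z : ℝ} {i n J : ℕ}
    (hC : 1 ≤ C) (hG : 1 ≤ G) (hL : 1 ≤ L) (hJ : 1 ≤ J)
    (hZ : Z = 21 * G + 60 + 50 * (2 * Real.log C + 78)) (hn : KK η P Z i ≤ n) (ha : |a| ≤ Real.exp (L + 1))
    (hy : -(et η i / 2 * (J * (n + 5) : ℕ) * L) ≤ y) :
    Real.exp (pp η P i * et η i / 10 * (J * (n + 5) : ℕ) * L) *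
      (4 / (Real.exp (-(2 * pp η P (i + 1) * (J * (n + 5) : ℕ) * L)) * Real.exp (-(pp η P (i + 1) * (J * (n + 5) : ℕ) * L)) ^ 2)) *
      Real.exp (-(pp η P i * (et η i * (J * (n + 5) : ℕ) * L + y))) *
      (C * (|a| + 1) ^ 26 * (C / Real.exp (-(pp η P i * n * L))) ^ (12 * pp η P i)) ^ J ≤ 4 := by
  obtain ⟨N, hN⟩ : ∃ N : ℝ, N = ((J * (n + 5) : ℕ) : ℝ) := ⟨_, rfl⟩
  rw [← hN] at hy ⊢
  have hp := pp_pos hh hP i
  have he := et_pos hh i
  have he1 := et_pos hh (i + 1)
  have hpe := pp_le_et hh hh1 hP hP1 i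
  have hp1 := pp_le hh hh1 hP hP1 i
  have hele := et_le hh hh1 i
  have hlC : 0 ≤ Real.log C := Real.log_nonneg hC
  have hJ1 : (1:ℝ) ≤ J := by exact_mod_cast hJ
  have hn0 : (0:ℝ) ≤ n := Nat.cast_nonneg n
  have hNJ : (J:ℝ) * n ≤ N := by
    rw [hN]
    push_cast
    nlinarith
  have hN0 : 0 ≤ N := by rw [hN]; exact Nat.cast_nonneg _
  have ha0 : 0 ≤ |a| := abs_nonneg a
  -- one factor
  have h1 : |a| + 1 ≤ Real.exp (L + 2) := by
    have e1 : Real.exp (L + 2) = Real.exp (L + 1) * Real.exp 1 := by rw [← Real.exp_add]; ring_nf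
    have e2 := Real.add_one_le_exp (1:ℝ)
    have e3 := Real.add_one_le_exp (L + 1)
    rw [e1]
    nlinarith
  have h2 : (|a| + 1) ^ 26 ≤ Real.exp (26 * (L + 2)) := by
    calc (|a| + 1) ^ 26 ≤ Real.exp (L + 2) ^ 26 := pow_le_pow_left₀ (by positivity) h1 26
      _ = Real.exp (26 * (L + 2)) := by rw [← Real.exp_nat_mul]; norm_num
  have h3 : (C / Real.exp (-(pp η P i * n * L))) ^ (12 * pp η P i) ≤ C * Real.exp (12 * pp η P i * (pp η P i * n * L)) := by
    have e1 : C / Real.exp (-(pp η P i * n * L)) = C * Real.exp (pp η P i * n * L) := by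
      rw [Real.exp_neg, div_inv_eq_mul]
    rw [e1, Real.mul_rpow (by linarith) (Real.exp_pos _).le, ← Real.exp_mul]
    have e2 : C ^ (12 * pp η P i) ≤ C := by
      calc C ^ (12 * pp η P i) ≤ C ^ (1:ℝ) := Real.rpow_le_rpow_of_exponent_le hC (by linarith)
        _ = C := Real.rpow_one C
    have e3 : pp η P i * n * L * (12 * pp η P i) = 12 * pp η P i * (pp η P i * n * L) := by ring
    rw [e3]
    exact mul_le_mul_of_nonneg_right e2 (Real.exp_pos _).le
  have h4 : C * (|a| + 1) ^ 26 * (C / Real.exp (-(pp η P i * n * L))) ^ (12 * pp η P i) ≤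
      Real.exp (2 * Real.log C + 26 * (L + 2) + 12 * pp η P i * (pp η P i * n * L)) := by
    have e1 : Real.exp (2 * Real.log C + 26 * (L + 2) + 12 * pp η P i * (pp η P i * n * L)) =
        C * Real.exp (26 * (L + 2)) * (C * Real.exp (12 * pp η P i * (pp η P i * n * L))) := by
      rw [Real.exp_add, Real.exp_add, two_mul, Real.exp_add, Real.exp_log (by linarith)]
      ring
    rw [e1]
    refine mul_le_mul (mul_le_mul_of_nonneg_left h2 (by linarith)) h3 ?_ (by positivity)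
    exact Real.rpow_nonneg (div_nonneg (by linarith) (Real.exp_pos _).le) _
  have h5 : (C * (|a| + 1) ^ 26 * (C / Real.exp (-(pp η P i * n * L))) ^ (12 * pp η P i)) ^ J ≤
      Real.exp (J * (2 * Real.log C + 26 * (L + 2) + 12 * pp η P i * (pp η P i * n * L))) := by
    have e0 : 0 ≤ (C / Real.exp (-(pp η P i * n * L))) ^ (12 * pp η P i) :=
      Real.rpow_nonneg (div_nonneg (by linarith) (Real.exp_pos _).le) _
    calc _ ≤ (Real.exp (2 * Real.log C + 26 * (L + 2) + 12 * pp η P i * (pp η P i * n * L))) ^ J := by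
          refine pow_le_pow_left₀ ?_ h4 J
          have : 0 ≤ C * (|a| + 1) ^ 26 := by positivity
          exact mul_nonneg this e0
      _ = _ := by rw [← Real.exp_nat_mul]
  have h6 : 4 / (Real.exp (-(2 * pp η P (i + 1) * N * L)) * Real.exp (-(pp η P (i + 1) * N * L)) ^ 2) =
      4 * Real.exp (pp η P i * et η i / 4 * N * L) := by
    rw [← Real.exp_nat_mul, ← Real.exp_add, div_eq_mul_inv, ← Real.exp_neg, pp_succ]
    congr 2
    push_cast
    ring
  rw [h6]
  calc Real.exp (pp η P i * et η i / 10 * N * L) * (4 * Real.exp (pp η P i * et η i / 4 * N * L)) *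
        Real.exp (-(pp η P i * (et η i * N * L + y))) *
        (C * (|a| + 1) ^ 26 * (C / Real.exp (-(pp η P i * n * L))) ^ (12 * pp η P i)) ^ J
      ≤ Real.exp (pp η P i * et η i / 10 * N * L) * (4 * Real.exp (pp η P i * et η i / 4 * N * L)) *
        Real.exp (-(pp η P i * (et η i * N * L + y))) *
        Real.exp (J * (2 * Real.log C + 26 * (L + 2) + 12 * pp η P i * (pp η P i * n * L))) :=
        mul_le_mul_of_nonneg_left h5 (by positivity)
    _ = 4 * Real.exp (pp η P i * et η i / 10 * N * L + pp η P i * et η i / 4 * N * L + -(pp η P i * (et η i * N * L + y)) +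
        J * (2 * Real.log C + 26 * (L + 2) + 12 * pp η P i * (pp η P i * n * L))) := by
        rw [Real.exp_add, Real.exp_add, Real.exp_add]
        ring
    _ ≤ 4 * Real.exp 0 := by
        refine mul_le_mul_of_nonneg_left ?_ (by norm_num)
        rw [Real.exp_le_exp]
        -- the margin
        have e1 : 50 * (2 * Real.log C + 78) ≤ n * (pp η P i * et η i) := by
          have e2 : Z ≤ n * (pp η P i ^ 2 * et η i * et η (i + 1)) := by
            unfold KK at hn
            rwa [div_le_iff₀ (by positivity)] at hn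
          have e3 : n * (pp η P i ^ 2 * et η i * et η (i + 1)) ≤ n * (pp η P i * et η i) := by
            refine mul_le_mul_of_nonneg_left ?_ hn0
            have e4 : pp η P i ^ 2 * et η i * et η (i + 1) = (pp η P i * et η i) * (pp η P i * et η (i + 1)) := by ring
            rw [e4]
            have e5 : et η (i + 1) ≤ 1 := (et_le hh hh1 _).trans (by norm_num)
            have e6 : pp η P i * et η (i + 1) ≤ 1 := by nlinarith
            exact mul_le_of_le_one_right (by positivity) e6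
          rw [hZ] at e2
          linarith
        have e7 : J * (2 * Real.log C + 26 * (L + 2)) ≤ pp η P i * et η i / 50 * N * L := by
          have e8 : 2 * Real.log C + 26 * (L + 2) ≤ (2 * Real.log C + 78) * L := by nlinarith
          have e9 : J * ((2 * Real.log C + 78) * L) ≤ J * ((n * (pp η P i * et η i) / 50) * L) := by
            refine mul_le_mul_of_nonneg_left (mul_le_mul_of_nonneg_right ?_ (by linarith)) (by linarith)
            linarith
          have e10 : J * ((n * (pp η P i * et η i) / 50) * L) = pp η P i * et η i / 50 * (J * n) * L := by ring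
          have e11 : pp η P i * et η i / 50 * (J * n) * L ≤ pp η P i * et η i / 50 * N * L :=
            mul_le_mul_of_nonneg_right (mul_le_mul_of_nonneg_left hNJ (by positivity)) (by linarith)
          have e12 : J * (2 * Real.log C + 26 * (L + 2)) ≤ J * ((2 * Real.log C + 78) * L) :=
            mul_le_mul_of_nonneg_left e8 (by linarith)
          linarith
        have e13 : J * (12 * pp η P i * (pp η P i * n * L)) ≤ 12 * pp η P i * pp η P i * N * L := by
          have e14 : J * (12 * pp η P i * (pp η P i * n * L)) = 12 * pp η P i * pp η P i * (J * n) * L := by ring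
          rw [e14]
          exact mul_le_mul_of_nonneg_right (mul_le_mul_of_nonneg_left hNJ (by positivity)) (by linarith)
        have e15 : 12 * pp η P i * pp η P i * N * L ≤ 12 * (et η i / 100) * pp η P i * N * L := by
          refine mul_le_mul_of_nonneg_right (mul_le_mul_of_nonneg_right (mul_le_mul_of_nonneg_right ?_ hp.le) hN0) (by linarith)
          linarith
        have e16 : pp η P i * -(et η i / 2 * N * L) ≤ pp η P i * y := mul_le_mul_of_nonneg_left hy hp.le
        have e17 : 0 ≤ pp η P i * et η i * N * L := by positivity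
        nlinarith
    _ = 4 := by rw [Real.exp_zero, mul_one]

/-- the noise is small enough -/
lemma noise_le (hh : 0 < η) (hP : 0 < P) {C' G L a u Z x : ℝ} {i n J M : ℕ} {g : ℝ}
    (hC' : 1 ≤ C') (hL : C' ≤ L) (hJ : 1 ≤ J)
    (hx0 : 0 < x) (hx : x < 1) (hZ : 21 * G ≤ Z) (hM1 : 1 ≤ M) (hMu : (M:ℝ) ≤ 21 * G / (et η (i + 1) * (pp η P i * et η i)))
    (hnx : KK η P Z i * ((J * (n + 5) : ℕ) : ℝ) ^ x ≤ n) (ha : Real.exp L ≤ |a|) (hu : Real.exp (-(L + 1)) ≤ |u|)
    (hg : g ≤ C' * ((M * (J * (n + 5)) : ℕ) : ℝ) ^ x) :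
    Real.exp (-(pp η P i * n * L)) / (10 * (|a| + 1)) ^ 5 ≤ |u| * Real.exp (-g) / 20 := by
  have hp := pp_pos hh hP i
  have he := et_pos hh i
  have he1 := et_pos hh (i + 1)
  have hL1 : 1 ≤ L := hC'.trans hL
  have hn0 : (0:ℝ) ≤ n := Nat.cast_nonneg n
  have hM1' : (1:ℝ) ≤ M := by exact_mod_cast hM1
  obtain ⟨N, hN⟩ : ∃ N : ℝ, N = ((J * (n + 5) : ℕ) : ℝ) := ⟨_, rfl⟩
  have hN0 : 0 ≤ N := by rw [hN]; exact Nat.cast_nonneg _
  have hg1 : g ≤ pp η P i * n * L := by
    refine hg.trans ?_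
    have e1 : ((M * (J * (n + 5)) : ℕ) : ℝ) ^ x = (M:ℝ) ^ x * N ^ x := by
      rw [hN, Nat.cast_mul, Real.mul_rpow (by positivity) (by positivity)]
    have e2 : (M:ℝ) ^ x ≤ M := by
      calc (M:ℝ) ^ x ≤ (M:ℝ) ^ (1:ℝ) := Real.rpow_le_rpow_of_exponent_le hM1' hx.le
        _ = M := Real.rpow_one _
    have e3 : (M:ℝ) ≤ pp η P i * KK η P Z i := by
      refine hMu.trans ?_
      unfold KK
      rw [mul_div_assoc', div_le_div_iff₀ (by positivity) (by positivity)]
      have e4 : 21 * G * (pp η P i ^ 2 * et η i * et η (i + 1)) ≤ Z * (pp η P i ^ 2 * et η i * et η (i + 1)) :=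
        mul_le_mul_of_nonneg_right hZ (by positivity)
      linarith
    have hNx : 0 ≤ N ^ x := Real.rpow_nonneg hN0 _
    rw [e1]
    rw [← hN] at hnx
    calc C' * ((M:ℝ) ^ x * N ^ x) ≤ C' * ((pp η P i * KK η P Z i) * N ^ x) := by
          refine mul_le_mul_of_nonneg_left (mul_le_mul_of_nonneg_right (e2.trans e3) hNx) (by linarith)
      _ = C' * pp η P i * (KK η P Z i * N ^ x) := by ring
      _ ≤ C' * pp η P i * n := mul_le_mul_of_nonneg_left hnx (by positivity)
      _ ≤ L * pp η P i * n := mul_le_mul_of_nonneg_right (mul_le_mul_of_nonneg_right hL hp.le) hn0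
      _ = pp η P i * n * L := by ring
  have h1 : 20 * Real.exp (5 * L) ≤ (10 * (|a| + 1)) ^ 5 := by
    have e1 : Real.exp (5 * L) = Real.exp L ^ 5 := by rw [← Real.exp_nat_mul]; norm_num
    have e2 : Real.exp L ^ 5 ≤ (|a| + 1) ^ 5 := pow_le_pow_left₀ (Real.exp_pos _).le (by linarith) 5
    have e3 : 0 ≤ (|a| + 1) ^ 5 := by positivity
    rw [e1, mul_pow]
    nlinarith
  calc Real.exp (-(pp η P i * n * L)) / (10 * (|a| + 1)) ^ 5 ≤ Real.exp (-(pp η P i * n * L)) / (20 * Real.exp (5 * L)) :=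
        div_le_div_of_nonneg_left (Real.exp_pos _).le (by positivity) h1
    _ = Real.exp (-(5 * L)) * Real.exp (-(pp η P i * n * L)) / 20 := by
        rw [Real.exp_neg (5 * L)]
        field_simp
    _ ≤ |u| * Real.exp (-g) / 20 := by
        refine div_le_div_of_nonneg_right (mul_le_mul ?_ ?_ (Real.exp_pos _).le (abs_nonneg _)) (by norm_num)
        · refine le_trans ?_ hu
          rw [Real.exp_le_exp]
          linarith
        · rw [Real.exp_le_exp]
          linarith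

/-- the final comparison of the exponents -/
lemma final_le (hh : 0 < η) (hh1 : η ≤ 1 / 200) (hP : 0 < P) (hP1 : P ≤ η / 100) {G L Z C : ℝ} {i n J M : ℕ}
    (hG : 1 ≤ G) (hL : 1 ≤ L) (hJ : 1 ≤ J) (hC : 1 ≤ C)
    (hZ : Z = 21 * G + 60 + 50 * (2 * Real.log C + 78)) (hn : KK η P Z i ≤ n)
    (hMl : 20 * G / (et η (i + 1) * (pp η P i * et η i)) ≤ M) :
    (M:ℝ) * (J + 2) + -(M * et η (i + 1) * (pp η P i * et η i / 10 * (J * (n + 5) : ℕ) * L)) ≤ -(G * (J * (n + 5) : ℕ) * L) := by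
  obtain ⟨N, hN⟩ : ∃ N : ℝ, N = ((J * (n + 5) : ℕ) : ℝ) := ⟨_, rfl⟩
  rw [← hN]
  have hp := pp_pos hh hP i
  have he := et_pos hh i
  have he1 := et_pos hh (i + 1)
  have hlC : 0 ≤ Real.log C := Real.log_nonneg hC
  have hJ1 : (1:ℝ) ≤ J := by exact_mod_cast hJ
  have hn0 : (0:ℝ) ≤ n := Nat.cast_nonneg n
  have hM0 : (0:ℝ) ≤ M := Nat.cast_nonneg M
  have hNJ : (J:ℝ) * n ≤ N := by
    rw [hN]
    push_cast
    nlinarith
  have hN0 : 0 ≤ N := by rw [hN]; exact Nat.cast_nonneg _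
  have e1 : 60 ≤ n * (et η (i + 1) * (pp η P i * et η i)) := by
    have e2 : Z ≤ n * (pp η P i ^ 2 * et η i * et η (i + 1)) := by
      unfold KK at hn
      rwa [div_le_iff₀ (by positivity)] at hn
    have e3 : n * (pp η P i ^ 2 * et η i * et η (i + 1)) ≤ n * (et η (i + 1) * (pp η P i * et η i)) := by
      refine mul_le_mul_of_nonneg_left ?_ hn0
      have e4 : pp η P i ^ 2 * et η i * et η (i + 1) = pp η P i * (et η (i + 1) * (pp η P i * et η i)) := by ring
      rw [e4]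
      have e5 : pp η P i ≤ 1 := (pp_le hh hh1 hP hP1 i).trans (by norm_num)
      exact mul_le_of_le_one_left (by positivity) e5
    rw [hZ] at e2
    linarith
  have e6 : ((J:ℝ) + 2) ≤ et η (i + 1) * (pp η P i * et η i) / 20 * N * L := by
    have e7 : ((J:ℝ) + 2) ≤ 3 * J := by linarith
    have e8 : 3 * (J:ℝ) ≤ (n * (et η (i + 1) * (pp η P i * et η i)) / 20) * J := by nlinarith
    have e9 : (n * (et η (i + 1) * (pp η P i * et η i)) / 20) * J = et η (i + 1) * (pp η P i * et η i) / 20 * (J * n) := by ring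
    have e10 : et η (i + 1) * (pp η P i * et η i) / 20 * (J * n) ≤ et η (i + 1) * (pp η P i * et η i) / 20 * N :=
      mul_le_mul_of_nonneg_left hNJ (by positivity)
    have e11 : et η (i + 1) * (pp η P i * et η i) / 20 * N * 1 ≤ et η (i + 1) * (pp η P i * et η i) / 20 * N * L :=
      mul_le_mul_of_nonneg_left hL (by positivity)
    linarith
  have e12 : (M:ℝ) * (J + 2) ≤ M * (et η (i + 1) * (pp η P i * et η i) / 20 * N * L) := mul_le_mul_of_nonneg_left e6 hM0
  have e13 : 20 * G ≤ M * (et η (i + 1) * (pp η P i * et η i)) := by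
    rwa [div_le_iff₀ (by positivity)] at hMl
  have e14 : G * (N * L) ≤ M * (et η (i + 1) * (pp η P i * et η i)) / 20 * (N * L) :=
    mul_le_mul_of_nonneg_right (by linarith) (by positivity)
  have e15 : M * et η (i + 1) * (pp η P i * et η i / 10 * N * L) =
      2 * (M * (et η (i + 1) * (pp η P i * et η i)) / 20 * (N * L)) := by ring
  have e16 : M * (et η (i + 1) * (pp η P i * et η i) / 20 * N * L) = M * (et η (i + 1) * (pp η P i * et η i)) / 20 * (N * L) := by ring
  rw [e15]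
  rw [e16] at e12
  linarith

/-! ### the theorem -/

/-- **LPS**: level step, one parameter -/
theorem lev_probS {h P : ℝ} (hh : 0 < h) (hh1 : h ≤ 1 / 200) (hP : 0 < P) (hP1 : P ≤ h / 100)
    {γ τ x : ℝ} (hd : 0 < d) (hγ : 0 < γ) (h1 : 1 / d ≤ τ) (h2 : τ * γ < x) (hx : x < 1) (G : ℝ) (hG : 1 ≤ G) :
    ∃ (c : ℝ) (K : ℕ → ℝ), (∀ i : ℕ, K i ≤ Real.exp (c * ((i : ℝ) + 1) ^ 2)) ∧
      ∀ D : ℝ, 0 < D → ∃ L₀ : ℝ, 1 ≤ L₀ ∧ ∀ L : ℝ, L₀ ≤ L → ∀ (i n J : ℕ), 1 ≤ J → K i ≤ n →
      K i * ((J * (n + 5) : ℕ) : ℝ) ^ x ≤ n →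
      ∀ (k : ℕ) (e : Fin k → Td d → ℝ) (U : Fin (k + 1) → ℝ) (a : ℝ) (α : Td d) (y : ℝ), (∀ i, Continuous (e i)) →
        Real.exp L ≤ |a| → |a| ≤ Real.exp (L + 1) → Real.exp (-(L + 1)) ≤ |U 0| → DC D τ α →
        -(et h i / 2 * (J * (n + 5) : ℕ) * L) ≤ y →
        lawL d {w | et h (i + 1) ≤ volume.real {θ : Td d | Pool.Agent.Helper82.AN.sq α (frc γ e U w) θ ∈ EvS h P a L i n J y}} ≤
          ENNReal.ofReal (Real.exp (-(G * (J * (n + 5) : ℕ) * L))) := by
  obtain ⟨C, hC, H⟩ := Pool.Agent.Helper46.AF.lev_exp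
  obtain ⟨Z, hZ⟩ : ∃ Z, Z = 21 * G + 60 + 50 * (2 * Real.log C + 78) := ⟨_, rfl⟩
  have hlC : 0 ≤ Real.log C := Real.log_nonneg hC
  have hZ21 : 21 * G ≤ Z := by rw [hZ]; linarith
  have hZ0 : 0 ≤ Z := by linarith
  have hdR : (0:ℝ) < d := by exact_mod_cast hd
  have hτ : 0 < τ := lt_of_lt_of_le (by positivity) h1
  have hx0 : 0 < x := lt_trans (by positivity) h2
  refine ⟨4 * cc h P + Z, KK h P Z, fun i => KK_le hh hP hZ0 i, fun D hD => ?_⟩
  obtain ⟨C', hC', HA⟩ := Pool.Agent.Helper10.AF.amp_ok hd hγ h1 h2 D hD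
  refine ⟨C', hC', fun L hL i n J hJ hn hnx k e U a α y he ha ha' hU hα hy => ?_⟩
  have hL1 : 1 ≤ L := hC'.trans hL
  have hp := pp_pos hh hP i
  have hp1 := pp_pos hh hP (i + 1)
  have hei := et_pos hh i
  have hei1 := et_pos hh (i + 1)
  have hU0 : U 0 ≠ 0 := by
    intro h0
    rw [h0, abs_zero] at hU
    exact absurd hU (not_le.2 (Real.exp_pos _))
  have ha1 : 1 ≤ |a| := by
    have e1 := Real.add_one_le_exp L
    linarith
  -- the number of translates
  obtain ⟨M, hM⟩ : ∃ M : ℕ, M = ⌈20 * G / (et h (i + 1) * (pp h P i * et h i))⌉₊ := ⟨_, rfl⟩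
  have hq0 : 0 < et h (i + 1) * (pp h P i * et h i) := by positivity
  have hM1 : 1 ≤ M := by
    rw [hM, Nat.one_le_ceil_iff]
    positivity
  have hMl : 20 * G / (et h (i + 1) * (pp h P i * et h i)) ≤ M := by
    rw [hM]
    exact Nat.le_ceil _
  have hMu : (M:ℝ) ≤ 21 * G / (et h (i + 1) * (pp h P i * et h i)) := by
    have e1 : (M:ℝ) < 20 * G / (et h (i + 1) * (pp h P i * et h i)) + 1 := by
      rw [hM]
      exact Nat.ceil_lt_add_one (by positivity)
    have e2 : 1 ≤ G / (et h (i + 1) * (pp h P i * et h i)) := by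
      rw [le_div_iff₀ hq0]
      have e3 := et_le hh hh1 (i + 1)
      have e4 := pp_le hh hh1 hP hP1 i
      have e5 := et_le hh hh1 i
      have e6 : pp h P i * et h i ≤ 1 := by nlinarith
      have e7 : et h (i + 1) * (pp h P i * et h i) ≤ 1 := by nlinarith
      linarith
    have e3 : 21 * G / (et h (i + 1) * (pp h P i * et h i)) = 20 * G / (et h (i + 1) * (pp h P i * et h i)) + G / (et h (i + 1) * (pp h P i * et h i)) := by
      ring
    linarith
  have hN1 : 1 ≤ J * (n + 5) := Nat.mul_pos hJ (by omega)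
  obtain ⟨r₀, N, P', β, hr0, hβ, hNN, hPP, hint, hamp⟩ := HA (J * (n + 5)) M α hN1 hM1 hα
  have hnoise := noise_le hh hP (a := a) (u := U 0) hC' hL hJ hx0 hx hZ21 hM1 hMu hnx ha hU hamp
  -- the set
  obtain ⟨Q, hQ⟩ : ∃ Q : ℝ, Q = Real.exp (pp h P i * et h i / 10 * (J * (n + 5) : ℕ) * L) := ⟨_, rfl⟩
  have hQ1 : 1 ≤ Q := by
    rw [hQ]
    exact Real.one_le_exp (by positivity)
  have hbase := base_le hh hh1 hP hP1 (i := i) (n := n) (a := a) hC hG hL1 hJ hZ hn ha' hy
  have hy' : 0 ≤ et h i * (J * (n + 5) : ℕ) * L + y := by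
    have e1 : et h i * (J * (n + 5) : ℕ) * L = 2 * (et h i / 2 * (J * (n + 5) : ℕ) * L) := by ring
    have e2 : 0 ≤ et h i / 2 * (J * (n + 5) : ℕ) * L := by positivity
    rw [e1]
    linarith
  have hmeas : MeasurableSet {q : Ow d × Td d | Pool.Agent.Helper82.AN.sq α (frc γ e U q.1) q.2 ∈ EvS h P a L i n J y} :=
    sq_frc_meas γ he U α (EvS_meas (fun a n {ρ δ cap} h1 h2 => Pool.Agent.Helper4.AF.rr_meas a n h1 h2) a (by linarith) i n J y)
  have hexp2 : ∀ θ : Td d, ∫⁻ w, ∏ l, (1 + ENNReal.ofReal Q *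
      {w : Ow d | (w, θ + β l) ∈ {q : Ow d × Td d | Pool.Agent.Helper82.AN.sq α (frc γ e U q.1) q.2 ∈ EvS h P a L i n J y}}.indicator 1 w)
        ∂lawL d ≤ ENNReal.ofReal (Real.exp (M * (J + 2))) := by
    intro θ
    have e1 := H d γ k e U α r₀ a (Real.exp (-(pp h P i * n * L))) (Real.exp (-(2 * pp h P i * n * L))) (2 * n * L)
      (Real.exp (-(pp h P (i + 1) * (J * (n + 5) : ℕ) * L))) (Real.exp (-(2 * pp h P (i + 1) * (J * (n + 5) : ℕ) * L)))
      (2 * (J * (n + 5) : ℕ) * L) (et h i * (J * (n + 5) : ℕ) * L + y) (pp h P i) Q n J M N P' (fun l => θ + β l) hγ he hU0 hr0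
      (Pool.Agent.Helper82.AN.SepR_add hβ θ) hNN hPP hint ha1 (Real.exp_pos _)
      (Real.exp_le_one_iff.2 (by rw [neg_nonpos]; positivity)) (Real.exp_pos _)
      (Real.exp_le_one_iff.2 (by rw [neg_nonpos]; positivity)) (Real.exp_pos _) (Real.exp_pos _) hp
      ((pp_le hh hh1 hP hP1 i).trans (by norm_num)) (by positivity)
      (by
        push_cast
        have : (0:ℝ) ≤ J * L := by positivity
        nlinarith)
      (by
        rw [Real.exp_le_exp, neg_le_neg_iff]
        exact le_of_eq (by ring)) hy' (by linarith) hnoise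
    rw [← EvS_eq] at e1
    have e2 : ∀ w : Ow d, ∏ l, (1 + ENNReal.ofReal Q *
        {w : Ow d | (w, θ + β l) ∈ {q : Ow d × Td d | Pool.Agent.Helper82.AN.sq α (frc γ e U q.1) q.2 ∈ EvS h P a L i n J y}}.indicator 1 w) =
        ∏ l, (1 + ENNReal.ofReal Q * (EvS h P a L i n J y).indicator 1
          (Pool.Agent.Helper82.AN.sq α (frc γ e U w) (θ + β l))) := by
      intro w
      refine Finset.prod_congr rfl fun l _ => ?_
      congr 2
    simp_rw [e2]
    refine e1.trans ?_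
    have e3 : Real.exp J * (1 + Q * (4 / (Real.exp (-(2 * pp h P (i + 1) * (J * (n + 5) : ℕ) * L)) *
        Real.exp (-(pp h P (i + 1) * (J * (n + 5) : ℕ) * L)) ^ 2)) * Real.exp (-(pp h P i * (et h i * (J * (n + 5) : ℕ) * L + y))) *
        (C * (|a| + 1) ^ 26 * (C / Real.exp (-(pp h P i * n * L))) ^ (12 * pp h P i)) ^ J) ≤ Real.exp (J + 2) := by
      rw [← hQ] at hbase
      have e4 : Real.exp ((J:ℝ) + 2) = Real.exp J * Real.exp 2 := Real.exp_add _ _
      have e5 : (5:ℝ) ≤ Real.exp 2 := by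
        have e6 : Real.exp 2 = Real.exp 1 * Real.exp 1 := by rw [← Real.exp_add]; norm_num
        have e7 := Real.exp_one_gt_d9
        rw [e6]
        nlinarith
      rw [e4]
      refine mul_le_mul_of_nonneg_left ?_ (Real.exp_pos _).le
      linarith
    calc _ ≤ (ENNReal.ofReal (Real.exp (J + 2))) ^ M := by
          gcongr
      _ = ENNReal.ofReal (Real.exp (M * (J + 2))) := by
          rw [← ENNReal.ofReal_pow (Real.exp_pos _).le, ← Real.exp_nat_mul]
  have hconc := Pool.Agent.Helper33.AF.conc hmeas hQ1 hexp2 (et h (i + 1))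
  refine hconc.trans ?_
  rw [← ENNReal.ofReal_mul (Real.exp_pos _).le, ← Real.exp_add]
  refine ENNReal.ofReal_le_ofReal ?_
  rw [Real.exp_le_exp, hQ, Real.log_exp]
  exact final_le hh hh1 hP hP1 hG hL1 hJ hC hZ hn hMl

end Pool.Agent.Helper25.AG
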